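import Pool.Agent.Helper70.OB.Goals

/-!
# Radial integration (project OB)
-/

open MeasureTheory Set Metric Filter
open scoped ENNReal Topology
open Pool.Agent.Results.MP_91ee6f_gt

namespace Pool.Agent.Helper70.OB

theorem radi_prod (n : ℕ) (hn : 1 ≤ n) (g : En n → ℝ≥0∞) :
    ∫⁻ x, g x = ∫⁻ p : sphere (0 : En n) 1 × Ioi (0 : ℝ), g ((p.2 : ℝ) • (p.1 : En n))
      ∂((volume : Measure (En n)).toSphere.prod (Measure.volumeIoiPow (n - 1))) := by
  have : Nonempty (Fin n) := ⟨⟨0, hn⟩⟩
  have : Nontrivial (En n) := inferInstance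
  have hdim : Module.finrank ℝ (En n) = n := by simp
  have hmp := (volume : Measure (En n)).measurePreserving_homeomorphUnitSphereProd
  rw [hdim] at hmp
  calc ∫⁻ x, g x = ∫⁻ x in ({(0 : En n)}ᶜ : Set (En n)), g x := by
        rw [restrict_compl_singleton]
    _ = ∫⁻ x : ({(0 : En n)}ᶜ : Set (En n)), g x.1
          ∂((volume : Measure (En n)).comap (Subtype.val)) := by
      rw [lintegral_subtype_comap (measurableSet_singleton _).compl g]
    _ = _ := by
      rw [← hmp.lintegral_comp_emb (Homeomorph.measurableEmbedding _)]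
      congr 1
      funext y
      congr 1
      have := (homeomorphUnitSphereProd (En n)).symm_apply_apply y
      conv_lhs => rw [← this]
      rw [homeomorphUnitSphereProd_symm_apply_coe]

theorem radi_pow (N : ℕ) (φ : ℝ → ℝ≥0∞) (hφ : Measurable φ) :
    ∫⁻ u : Ioi (0 : ℝ), φ u ∂(Measure.volumeIoiPow N) =
      ∫⁻ u in Ioi (0 : ℝ), ENNReal.ofReal (u ^ N) * φ u := by
  rw [Measure.volumeIoiPow, lintegral_withDensity_eq_lintegral_mul _ (by fun_prop)
    (by fun_prop)]
  rw [← lintegral_subtype_comap measurableSet_Ioi (fun s => ENNReal.ofReal (s ^ N) * φ s)]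
  simp

/-- The integral of a function which is constant on spheres. -/
theorem radi_const (n : ℕ) (hn : 1 ≤ n) (g : En n → ℝ≥0∞) (φ : ℝ → ℝ≥0∞) (hφ : Measurable φ)
    (h : ∀ (u : ℝ), 0 < u → ∀ θ : En n, ‖θ‖ = 1 → g (u • θ) = φ u) :
    ∫⁻ x, g x = (n : ℝ≥0∞) * volume (ball (0 : En n) 1) *
      ∫⁻ u in Ioi (0 : ℝ), ENNReal.ofReal (u ^ (n - 1)) * φ u := by
  have : Nonempty (Fin n) := ⟨⟨0, hn⟩⟩
  have : Nontrivial (En n) := inferInstance
  have hdim : Module.finrank ℝ (En n) = n := by simp
  rw [radi_prod n hn g]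
  have h1 : ∀ p : sphere (0 : En n) 1 × Ioi (0 : ℝ), g ((p.2 : ℝ) • (p.1 : En n)) =
      φ (p.2 : ℝ) := by
    rintro ⟨⟨θ, hθ⟩, ⟨u, hu⟩⟩
    exact h u hu θ (by simpa using hθ)
  simp_rw [h1]
  rw [lintegral_prod _ (by fun_prop)]
  simp only [lintegral_const]
  rw [radi_pow _ _ hφ, Measure.toSphere_apply_univ, hdim]
  ring

theorem radi_rot {n : ℕ} {τ : Measure (En n)} (hτ : Rot τ) {h : ℝ → ℝ≥0∞} (hh : Measurable h)
    {x x' : En n} (hx : ‖x‖ = ‖x'‖) :
    ∫⁻ y, h (dist x y) ∂τ = ∫⁻ y, h (dist x' y) ∂τ := by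
  have h1 := Submodule.reflection_sub hx
  set g : En n ≃ₗᵢ[ℝ] En n := (ℝ ∙ (x - x'))ᗮ.reflection with hg
  have h2 : ∫⁻ y, h (dist x' y) ∂τ = ∫⁻ y, h (dist x' y) ∂(τ.map g) := by rw [hτ g]
  rw [h2, lintegral_map (by fun_prop) (by fun_prop)]
  refine lintegral_congr fun y => ?_
  rw [← h1, g.dist_map]

theorem radi_thm : RADI := by
  intro n hn τ hfin hτ e he h hh
  constructor
  · intro r hr
    have hmeas : Measurable fun x : En n => ∫⁻ y, h (dist x y) ∂τ := by
      refine Measurable.lintegral_prod_right ?_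
      fun_prop
    have h1 : ∫⁻ y, (∫⁻ x in ball (0 : En n) r, h (dist x y)) ∂τ =
        ∫⁻ x in ball (0 : En n) r, ∫⁻ y, h (dist x y) ∂τ := by
      rw [lintegral_lintegral_swap]
      refine Measurable.aemeasurable ?_
      fun_prop
    have hcurve : Measurable fun u : ℝ => ∫⁻ y, h (dist (u • e) y) ∂τ := by
      refine Measurable.lintegral_prod_right ?_
      fun_prop
    rw [h1, ← lintegral_indicator measurableSet_ball,
      radi_const n hn _ ((Iio r).indicator fun u => ∫⁻ y, h (dist (u • e) y) ∂τ)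
        (hcurve.indicator measurableSet_Iio)]
    · congr 1
      rw [← lintegral_indicator measurableSet_Ioi, ← lintegral_indicator measurableSet_Ioo]
      congr 1
      funext u
      by_cases hu : 0 < u
      · by_cases hur : u < r
        · simp [indicator, hu, hur]
        · simp [indicator, hu, hur]
      · simp [indicator, hu]
    · intro u hu θ hθ
      have h2 : ‖u • θ‖ = u := by
        rw [norm_smul, hθ, mul_one, Real.norm_eq_abs, abs_of_pos hu]
      have h3 : ‖u • e‖ = u := by
        rw [norm_smul, he, mul_one, Real.norm_eq_abs, abs_of_pos hu]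
      simp only [indicator, mem_ball, dist_zero_right, h2, mem_Iio]
      split_ifs
      · exact radi_rot hτ hh (h2.trans h3.symm)
      · rfl
  · intro y η hη
    have hm : MeasurableSet {x : En n | η < dist x y} :=
      measurableSet_lt measurable_const (by fun_prop)
    rw [← lintegral_indicator hm, ← lintegral_add_right_eq_self _ y,
      radi_const n hn _ ((Ioi η).indicator h) (hh.indicator measurableSet_Ioi)]
    · congr 1
      rw [← lintegral_indicator measurableSet_Ioi, ← lintegral_indicator measurableSet_Ioi]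
      congr 1
      funext u
      by_cases hu : η < u
      · simp [indicator, hu, lt_of_le_of_lt hη hu]
      · simp [indicator, hu]
    · intro u hu θ hθ
      have h2 : dist (u • θ + y) y = u := by
        rw [dist_eq_norm, add_sub_cancel_right, norm_smul, hθ, mul_one, Real.norm_eq_abs,
          abs_of_pos hu]
      simp only [indicator, mem_ofPred_eq, h2, mem_Ioi]

end Pool.Agent.Helper70.OB
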